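import Pool.Agent.H97.PRK.Targets
import Pool.Agent.H40.PRK.JX
import Pool.Agent.H45.CF.FO
import Pool.Agent.H45.CF.SL
import Pool.Agent.H45.CF.UN
import Pool.Agent.H11.CF.UM
import Pool.Agent.H86.CF.FW

/-!
# COV. In the first case small sets of ordinals are in small ordinal definable sets
(MP_e37c09_lc)
-/

open Ordinal Cardinal Order Set
open scoped ZFSet

universe u

namespace Pool.Agent.H75.PRK

open _root_.HD _root_.HD.CF HD.PRK Pool.Agent.H45.NF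
open _root_.HD.NF (w0)

/-- the predicate which is transferred: variables `κ, δ, f, x, ω` -/
def COV_Pr (v : ℕ → ZFSet.{u}) : Prop :=
  ∃ b ∈ v 0, ∃ c ∈ v 1, v 4 ∈ c ∧ (c.IsOrdinal ∧ b.IsOrdinal ∧ Cf c.rank b.rank) ∧
    ∀ i ∈ v 3, ((v 4).IsOrdinal ∧ b.IsOrdinal ∧
      Pos (v 4).rank b.rank {b' | ZFSet.pair b'.toZFSet i ∈ v 2})

theorem COV_loc : Loc.{u} COV_Pr := by
  refine Loc.exMem (R := fun b v => ∃ c ∈ v 1, v 4 ∈ c ∧ (c.IsOrdinal ∧ b.IsOrdinal ∧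
    Cf c.rank b.rank) ∧ ∀ i ∈ v 3, ((v 4).IsOrdinal ∧
      b.IsOrdinal ∧ Pos (v 4).rank b.rank {b' | ZFSet.pair b'.toZFSet i ∈ v 2})) 0 ?_
  refine Loc.exMem (R := fun c v => v 5 ∈ c ∧ (c.IsOrdinal ∧ (v 0).IsOrdinal ∧
    Cf c.rank (v 0).rank) ∧ ∀ i ∈ v 4, ((v 5).IsOrdinal ∧
      (v 0).IsOrdinal ∧ Pos (v 5).rank (v 0).rank {b' | ZFSet.pair b'.toZFSet i ∈ v 3})) 2 ?_
  refine (Loc.mem 6 0).and (Loc.and ?_ ?_)
  · exact (Loc.ren All.la (fun n => if n = 0 then 0 else 1)).congr fun v => by simp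
  · refine Loc.allMem (R := fun i v => ((v 6).IsOrdinal ∧
      (v 1).IsOrdinal ∧ Pos (v 6).rank (v 1).rank {b' | ZFSet.pair b'.toZFSet i ∈ v 4})) 5 ?_
    exact (Loc.ren All.lb (fun n => if n = 0 then 7 else if n = 1 then 2 else
      if n = 2 then 5 else 0)).congr fun v => by simp

/-- All sets of a small family are positive at some `β` of small cofinality. -/
theorem COV_cv (δ : Ordinal.{u}) (K : Cardinal.{u}) (s : Ordinal.{u} → Ordinal.{u} → Prop)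
    (hext : Extendible δ) (hP : Ptn K s) (hδ : δ < K.ord) (x : ZFSet.{u})
    (hx : x ⊆ K.ord.toZFSet) (hfew : ∃ τ < δ, ∃ g : Ordinal.{u} → Ordinal.{u},
      ∀ a : Ordinal.{u}, a.toZFSet ∈ x → ∃ i < τ, g i = a) :
    ∃ β < K.ord, ℵ₀ < β.cof ∧ β.cof.ord < δ ∧ ∀ a : Ordinal.{u}, a.toZFSet ∈ x →
      Pos w0 β {b | s b a} := by
  obtain ⟨τ, hτ, g, hg⟩ := hfew
  obtain ⟨η, -, θ, j, hs⟩ := Pool.Agent.H45.CF.pf_sl δ K s hext hP hδ 0
  have hj := hs.emb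
  set f : ZFSet.{u} := rs K.ord K.ord s with hf
  have hKη : K.ord < η := hs.kη
  have hω : (ω : Ordinal.{u}) < δ := hs.dom
  have hωη : (ω : Ordinal.{u}) < η := hω.trans hj.dlt
  have hw0 : (w0 : Ordinal.{u}) = ω := Cardinal.ord_aleph0
  -- the ordinal `ρ`
  obtain ⟨ρ, hρ1, hρ2⟩ : ∃ ρ : Ordinal.{u}, (∀ a < K.ord, Jo j a < ρ) ∧
      ∀ y < ρ, ∃ a < K.ord, y < Jo j a := by
    have hne : Jo j K.ord ∈ {r : Ordinal.{u} | ∀ a < K.ord, Jo j a < r} :=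
      fun a ha => H87.HD.XF.J_lt hj ha hKη
    refine ⟨sInf {r : Ordinal.{u} | ∀ a < K.ord, Jo j a < r}, csInf_mem ⟨_, hne⟩, fun y hy => ?_⟩
    have h1 : y ∉ {r : Ordinal.{u} | ∀ a < K.ord, Jo j a < r} := notMem_of_lt_csInf' hy
    simp only [Set.mem_ofPred_eq, not_forall, not_lt] at h1
    obtain ⟨a, ha, h2⟩ := h1
    have hsa : succ a < K.ord := (Cardinal.isSuccLimit_ord hs.kreg.1).succ_lt ha
    exact ⟨succ a, hsa, h2.trans_lt (H87.HD.XF.J_lt hj (lt_succ a) (hsa.trans hKη))⟩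
  have hρcof : ρ.cof = K := by
    rw [← H87.HD.XF.cof_eq (Jo j) (fun a b hab hb => H87.HD.XF.J_lt hj hab (hb.trans hKη))
      hρ1 hρ2, hs.kreg.cof_ord]
  have hρK : ρ < Jo j K.ord := by
    obtain ⟨K', hK', hJK⟩ := All.xd δ η θ j hj K hs.kreg hKη
    have hle : ρ ≤ Jo j K.ord := by
      by_contra h
      push Not at h
      obtain ⟨a, ha, h1⟩ := hρ2 _ h
      exact absurd (H87.HD.XF.J_lt hj ha hKη) (not_lt.2 h1.le)
    refine lt_of_le_of_ne hle fun h => ?_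
    have h1 : K = K' := by
      rw [← hρcof, h, hJK, hK'.cof_ord]
    have h2 : K.ord < Jo j K.ord :=
      (hKη.trans hj.Jo_crit).trans (H87.HD.XF.J_lt hj hs.dk hKη)
    rw [hJK, ← h1] at h2
    exact lt_irrefl _ h2
  have hXF := All.xf δ η θ j ℵ₀ K K.ord f hs ρ hρ1 hρ2
  have hxV : x ∈ V_ η := mem_V_of_sub hx (Gd.ord.2 hKη)
  -- the image of `x`
  have hSX : SolX δ η θ j K (max τ ω) ρ f :=
    ⟨hj, hs.kreg, hω, hδ, hKη, le_max_right _ _, max_lt hτ hω, hs.fη, hρ1, hρ2⟩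
  have hjx := Pool.Agent.H40.PRK.pf_JX δ η θ j K (max τ ω) ρ f hSX x hx
    ⟨g, fun a ha => by
      obtain ⟨i, hi, he⟩ := hg a ha
      exact ⟨i, hi.trans_le (le_max_left _ _), he⟩⟩
  have hmem : ∀ z ∈ [K.ord.toZFSet, δ.toZFSet, f, x, (ω : Ordinal.{u}).toZFSet], z ∈ V_ η := by
    simp only [List.mem_cons, List.not_mem_nil, or_false, forall_eq_or_imp, forall_eq]
    exact ⟨Gd.ord.2 hKη, Gd.ord.2 hj.dlt, hs.fη, hxV, Gd.ord.2 hωη⟩
  have key := (hj.trl COV_loc _ hmem).2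
  have h2 : COV_Pr (sv (List.map j
      [K.ord.toZFSet, δ.toZFSet, f, x, (ω : Ordinal.{u}).toZFSet])) := by
    show ∃ b ∈ j K.ord.toZFSet, ∃ c ∈ j δ.toZFSet, j (ω : Ordinal.{u}).toZFSet ∈ c ∧
      (c.IsOrdinal ∧ b.IsOrdinal ∧ Cf c.rank b.rank) ∧
      ∀ i ∈ j x, ((j (ω : Ordinal.{u}).toZFSet).IsOrdinal ∧ b.IsOrdinal ∧
        Pos (j (ω : Ordinal.{u}).toZFSet).rank b.rank {b' | ZFSet.pair b'.toZFSet i ∈ j f})
    rw [hj.fix _ hω, hj.ord hKη, hj.ord hj.dlt]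
    refine ⟨ρ.toZFSet, toZFSet_mem_toZFSet_iff.2 hρK, K.ord.toZFSet,
      toZFSet_mem_toZFSet_iff.2 (hKη.trans hj.Jo_crit),
      toZFSet_mem_toZFSet_iff.2 (hω.trans hδ),
      ⟨ZFSet.isOrdinal_toZFSet _, ZFSet.isOrdinal_toZFSet _, ?_⟩, ?_⟩
    · rw [rank_toZFSet, rank_toZFSet]
      show ρ.cof.ord = K.ord
      rw [hρcof]
    · intro i hi
      refine ⟨ZFSet.isOrdinal_toZFSet _, ZFSet.isOrdinal_toZFSet _, ?_⟩
      obtain ⟨a, ha, rfl⟩ := (hjx i).1 hi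
      have haK : a < K.ord := toZFSet_mem_toZFSet_iff.1 (hx ha)
      rw [rank_toZFSet, rank_toZFSet, ← Cardinal.ord_aleph0]
      have h4 : Jo j a < Jo j K.ord := H87.HD.XF.J_lt hj haK hKη
      exact (hXF _ h4).2 ⟨a, haK, rfl⟩
  have h3 := key h2
  change ∃ b ∈ K.ord.toZFSet, ∃ c ∈ δ.toZFSet, (ω : Ordinal.{u}).toZFSet ∈ c ∧
      (c.IsOrdinal ∧ b.IsOrdinal ∧ Cf c.rank b.rank) ∧
      ∀ i ∈ x, ((ω : Ordinal.{u}).toZFSet.IsOrdinal ∧ b.IsOrdinal ∧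
        Pos (ω : Ordinal.{u}).toZFSet.rank b.rank {b' | ZFSet.pair b'.toZFSet i ∈ f}) at h3
  obtain ⟨b, hb, c, hc, h4, ⟨-, -, h5⟩, h6⟩ := h3
  obtain ⟨β, hβ, rfl⟩ := mem_toZFSet_iff.1 hb
  obtain ⟨γ, hγ, rfl⟩ := mem_toZFSet_iff.1 hc
  rw [rank_toZFSet, rank_toZFSet] at h5
  have h5' : β.cof.ord = γ := h5
  rw [toZFSet_mem_toZFSet_iff] at h4
  refine ⟨β, hβ, ?_, h5'.trans_lt hγ, fun a ha => ?_⟩
  · rw [← h5', ← Cardinal.ord_aleph0] at h4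
    exact Cardinal.ord_lt_ord.1 h4
  · have h7 := (h6 a.toZFSet ha).2.2
    rw [rank_toZFSet, rank_toZFSet] at h7
    rw [hw0]
    refine h7.mono fun b' _ hb' _ => ?_
    exact (pair_mem_rs.1 hb').2.2

/-- `z` is related by `R` to a subset of `S` and to nothing else -/
def COV_UP (R S z : ZFSet.{u}) : Prop := ∃ y, y ⊆ S ∧ ∀ w, ZFSet.pair y w ∈ R ↔ w = z

theorem COV_dz {R S : ZFSet.{u}} (hR : OD R) (hS : OD S) : DZ.{u} fun v => COV_UP R S (v 0) := by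
  refine DZ.ex (R := fun y v => y ⊆ S ∧ ∀ w, ZFSet.pair y w ∈ R ↔ w = v 0) ?_
  refine DZ.and ?_ (DZ.all (R := fun w v => ZFSet.pair (v 0) w ∈ R ↔ w = v 1) ?_)
  · refine (DZ.all (R := fun z v => z ∈ v 0 → z ∈ S) ((DZ.mem 0 1).imp
      (DZ.od (R := fun b v => v 0 ∈ b) hS (DZ.mem 1 0)))).congr fun v => ?_
    exact ⟨fun h z hz => h hz, fun h z hz => h z hz⟩
  · exact (DZ.od (R := fun r v => ZFSet.pair (v 1) (v 0) ∈ r) hR (loc_pmem 2 1 0).dz).iff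
      (DZ.eq 0 2)

/-- COV. In the first case each set which is definable from a small set of ordinals and ordinals
is in a small ordinal definable set. -/
theorem pf_COV : ∀ δ : Ordinal.{u}, Extendible δ → CaseA δ → ∀ (κ : Ordinal.{u}) (x : ZFSet.{u}),
    x ⊆ κ.toZFSet → (∃ τ < δ, ∃ g : Ordinal.{u} → Ordinal.{u}, ∀ a : Ordinal.{u},
      a.toZFSet ∈ x → ∃ i < τ, g i = a) → ∀ B, NF.ODp x B →
    ∃ Z, OD Z ∧ B ∈ Z ∧ ∃ ν : Cardinal.{u}, ν.ord < δ ∧ NF.Sz ν Z := by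
  intro δ hδ hA κ x hx hfew B hB
  obtain ⟨D, hD, hDr, hDs, hD0⟩ := Pool.Agent.H45.CF.ext_card hδ
  obtain ⟨K, s, hK1, hK2, hs⟩ :=
    Pool.Agent.H45.CF.pf_un Pool.Agent.H11.CF.pf_UM δ hA κ
  have hxK : x ⊆ K.ord.toZFSet := fun z hz => by
    obtain ⟨a, ha, rfl⟩ := mem_toZFSet_iff.1 (hx hz)
    exact toZFSet_mem_toZFSet_iff.2 (ha.trans hK1)
  obtain ⟨β, hβK, hβ0, hβδ, hpos⟩ := COV_cv δ K s hδ hs hK2 x hxK hfew
  let A : Set Ordinal.{u} := {i | i < K.ord ∧ Pos w0 β {b | s b i}}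
  have hADS : DS A := by
    refine DO.and (DO.ltc 0 K.ord) ?_
    refine DO.sub (R := fun m w => Pos m β {b | s b (w 0)}) w0 ?_
    refine DO.sub (R := fun k w => Pos (w 0) k {b | s b (w 1)}) β ?_
    refine All.da 1 0 (fun b w => s b (w 2)) ?_
    exact DO.s2 (X := fun a b => s a b) hs.dr 0 3
  have hAOD : OD (os K.ord A) := od_os hADS K.ord
  obtain ⟨e, he⟩ := Pool.Agent.H86.CF.pf_FW β hβ0 s hs.fn
  obtain ⟨R, hR, hRB⟩ := (pf_pa x B).1 hB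
  refine ⟨ZFSet.sep (COV_UP R (os K.ord A)) (V_ (B.rank + 1)),
    od_sep (HD.NF.od_V _) (COV_dz hR hAOD), ?_, 2 ^ β.cof, ?_, ?_⟩
  · rw [ZFSet.mem_sep]
    refine ⟨by rw [ZFSet.mem_vonNeumann]; exact lt_add_one _, x, fun z hz => ?_, hRB⟩
    obtain ⟨a, ha, rfl⟩ := mem_toZFSet_iff.1 (hxK hz)
    exact ord_mem_os.2 ⟨ha, ha, hpos a hz⟩
  · rw [hD] at hβδ ⊢
    exact Cardinal.ord_lt_ord.2 (hDs.isStrongPrelimit (Cardinal.ord_lt_ord.1 hβδ))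
  · rw [sz_iff]
    have h1 : ∀ x : {x : ZFSet.{u} // x ∈ ZFSet.sep (COV_UP R (os K.ord A)) (V_ (B.rank + 1))},
        COV_UP R (os K.ord A) x.1 := fun x => (ZFSet.mem_sep.1 x.2).2
    choose I hI1 hI2 using h1
    let F : {x : ZFSet.{u} // x ∈ ZFSet.sep (COV_UP R (os K.ord A)) (V_ (B.rank + 1))} →
        ULift.{u + 1} (Set β.cof.ord.ToType) := fun x =>
      ⟨{a | (e (Ordinal.ToType.toOrd a).1).toZFSet ∈ I x}⟩
    have hF : Function.Injective F := by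
      intro x x' hxx
      have h2 : ∀ a < β.cof.ord, ((e a).toZFSet ∈ I x ↔ (e a).toZFSet ∈ I x') := by
        intro a ha
        have h3 := congrArg ULift.down hxx
        have h4 := Set.ext_iff.1 h3 (Ordinal.ToType.mk ⟨a, ha⟩)
        have h5 : (Ordinal.ToType.toOrd (Ordinal.ToType.mk ⟨a, ha⟩)).1 = a := by
          simp [Ordinal.ToType.toOrd]
        simp only [F, Set.mem_ofPred_eq, h5] at h4
        exact h4
      have h3 : ∀ w w', (∀ a < β.cof.ord, ((e a).toZFSet ∈ I w → (e a).toZFSet ∈ I w')) →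
          ∀ z ∈ I w, z ∈ I w' := by
        intro w w' h z hz
        obtain ⟨i, hi, hiA, rfl⟩ := mem_os.1 (hI1 w hz)
        obtain ⟨a, ha, rfl⟩ := he i hiA.2
        exact h a ha hz
      have h4 : I x = I x' := ZFSet.ext fun z =>
        ⟨h3 x x' (fun a ha => (h2 a ha).1) z, h3 x' x (fun a ha => (h2 a ha).2) z⟩
      refine Subtype.ext ?_
      have h5 := (hI2 x x.1).2 rfl
      rw [h4] at h5
      exact (hI2 x' x.1).1 h5
    have h2 := Cardinal.mk_le_of_injective hF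
    rwa [Cardinal.mk_uLift, Cardinal.mk_set, Cardinal.mk_ord_toType] at h2

end Pool.Agent.H75.PRK
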