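import Pool.Agent.H75.PRK.COV
import Pool.Agent.H67.PRK.AL

/-!
# EQB. The first case holds if and only if small sets of ordinals are in small ordinal definable
sets (MP_e37c09_lc)
-/

open Ordinal Cardinal Order Set
open scoped ZFSet

universe u

namespace Pool.Agent.H75.PRK

open _root_.HD _root_.HD.CF HD.PRK Pool.Agent.H45.NF

theorem EQB_odp (x : ZFSet.{u}) : NF.ODp x x :=
  ODp.of_dz (Q := fun v => v 0 = v 1) (DZ.eq 0 1) fun _ => Iff.rfl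

/-- the ordinals in small elements of `Z` -/
def EQB_X (α : Ordinal.{u}) (c : Cardinal.{u}) (Z : ZFSet.{u}) : Set Ordinal.{u} :=
  {a | a < α ∧ ∃ y ∈ Z, NF.Sz c y ∧ a.toZFSet ∈ y}

theorem EQB_ds {α : Ordinal.{u}} {c : Cardinal.{u}} {Z : ZFSet.{u}} (hZ : OD Z) :
    DS (EQB_X α c Z) := by
  have h2 : DZ.{u} fun v => ∃ y ∈ Z, NF.Sz c y ∧ v 0 ∈ y :=
    DZ.od (R := fun z v => ∃ y ∈ z, NF.Sz c y ∧ v 0 ∈ y) hZ
      (DZ.exMem (R := fun y v => NF.Sz c y ∧ v 1 ∈ y) 0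
        ((NF.dz_Sz c 0).and (DZ.mem 2 0)))
  exact (DO.ltc 0 α).and (DZ.do h2)

theorem EQB_few {D ν c : Cardinal.{u}} (hD : ℵ₀ ≤ D) (hν : ν < D) (hc : c < D)
    {α : Ordinal.{u}} {Z : ZFSet.{u}} (hZ : NF.Sz ν Z) : Few D.ord (EQB_X α c Z) := by
  obtain ⟨e, he⟩ := hZ
  rw [few_iff]
  have h1 : ∀ i : EQB_X α c Z, ∃ a < ν.ord, NF.Sz c (e a) ∧ i.1.toZFSet ∈ e a := by
    rintro ⟨i, -, y, hy, h1, h2⟩
    obtain ⟨a, ha, rfl⟩ := he y hy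
    exact ⟨a, ha, h1, h2⟩
  choose f hf1 hf2 hf3 using h1
  have h2 : ∀ i : EQB_X α c Z, ∃ b < c.ord, i.1.toZFSet = (hf2 i).choose b :=
    fun i => (hf2 i).choose_spec _ (hf3 i)
  choose g hg1 hg2 using h2
  let F : EQB_X α c Z → Iio ν.ord × Iio c.ord := fun i => (⟨f i, hf1 i⟩, ⟨g i, hg1 i⟩)
  have key : ∀ (x y : ZFSet.{u}) (hx : NF.Sz c x) (hy : NF.Sz c y) (b b' : Ordinal.{u}),
      x = y → b = b' → hx.choose b = hy.choose b' := by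
    intro x y hx hy b b' h h'
    subst h
    subst h'
    rfl
  have hinj : Function.Injective F := by
    intro i i' h
    have e1 : f i = f i' := congrArg (fun p => p.1.1) h
    have e2 : g i = g i' := congrArg (fun p => p.2.1) h
    apply Subtype.ext
    apply toZFSet_injective
    rw [hg2 i, hg2 i']
    exact key _ _ _ _ _ _ (by rw [e1]) e2
  have h2 : #(EQB_X α c Z) ≤ #(Iio ν.ord × Iio c.ord) := Cardinal.mk_le_of_injective hinj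
  refine h2.trans_lt ?_
  rw [Cardinal.mk_prod, Cardinal.lift_id, Cardinal.lift_id, Cardinal.mk_Iio_ordinal,
    Cardinal.mk_Iio_ordinal, Cardinal.card_ord, Cardinal.card_ord, ← Cardinal.lift_mul,
    Cardinal.lift_lt]
  exact Cardinal.mul_lt_of_lt hD hν hc

/-- EQB. -/
theorem pf_EQB : ∀ δ : Ordinal.{u}, Extendible δ → (CaseA δ ↔
    ∀ (κ : Ordinal.{u}) (x : ZFSet.{u}), x ⊆ κ.toZFSet →
      (∃ τ < δ, ∃ g : Ordinal.{u} → Ordinal.{u}, ∀ a : Ordinal.{u},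
        a.toZFSet ∈ x → ∃ i < τ, g i = a) →
      ∃ Z, OD Z ∧ x ∈ Z ∧ ∃ ν : Cardinal.{u}, ν.ord < δ ∧ NF.Sz ν Z) := by
  intro δ hδ
  refine ⟨fun hA κ x hx hf => pf_COV δ hδ hA κ x hx hf x (EQB_odp x), fun h => ?_⟩
  by_contra hA
  obtain ⟨α, hδα, hreg, hlim, hcof⟩ := Pool.Agent.H67.PRK.pf_AL δ hδ hA
  obtain ⟨D, hD, hDr, hDs, hD0⟩ := Pool.Agent.H45.CF.ext_card hδ
  obtain ⟨B, hB, hBl, e, he⟩ := All.vg α hlim
  obtain ⟨Z, hZ, hxZ, ν, hν, hS⟩ := h α (os α B) (fun z hz => by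
      obtain ⟨a, ha, -, rfl⟩ := mem_os.1 hz
      exact toZFSet_mem_toZFSet_iff.2 ha)
    ⟨α.cof.ord, hcof, e, fun a ha => he a (ord_mem_os.1 ha).2⟩
  have hc : α.cof < D := by
    rw [hD] at hcof
    exact Cardinal.ord_lt_ord.1 hcof
  have hν' : ν < D := by
    rw [hD] at hν
    exact Cardinal.ord_lt_ord.1 hν
  have hfew : Few D.ord (EQB_X α α.cof Z) := EQB_few hD0.le hν' hc hS
  obtain ⟨τ, hτ, g, hg⟩ := hfew
  refine hreg (EQB_X α α.cof Z) (EQB_ds hZ) (fun b hb => ?_)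
    ⟨τ, hτ.trans_le ?_, g, fun a ha => hg a ha.1⟩
  · obtain ⟨c, hc1, hc2, hc3⟩ := hB.unb b hb
    refine ⟨c, hc1, hc2.le, hc1, os α B, hxZ, ⟨fun a => (e a).toZFSet, fun z hz => ?_⟩,
      ord_mem_os.2 ⟨hc1, hc3⟩⟩
    obtain ⟨a, ha, haB, rfl⟩ := mem_os.1 hz
    obtain ⟨i, hi, hi2⟩ := he a haB
    exact ⟨i, hi, congrArg Ordinal.toZFSet hi2.symm⟩
  · rw [hD] at hδα
    exact Cardinal.ord_le_ord.2 (Cardinal.ord_le.1 hδα.le)

end Pool.Agent.H75.PRK
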