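import Pool.Agent.H97.PRK.Targets2
import Pool.Agent.H40.PRK.EQ
import Pool.Agent.H45.NF.CL

/-!
# UL. The argument of Ulam for small sets (MP_e37c09_lc)
-/

open Ordinal Cardinal Order Set
open scoped ZFSet

universe u

namespace Pool.Agent.H75.PRK

open _root_.HD HD.PRK Pool.Agent.H45.NF
open Pool.Agent.H40.PRK (Good Rn rn_dr)

/-- `p = (x, i)`, where `Q b i` for the least element `b` of `x` -/
def UL_P (Q : (ℕ → ZFSet.{u}) → Prop) (p : ZFSet.{u}) : Prop :=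
  ∃ x i b, p = ZFSet.pair x i ∧ i.IsOrdinal ∧ b ∈ x ∧ b.IsOrdinal ∧
    (∀ b' ∈ x, b = b' ∨ b ∈ b') ∧ Q (fun k => if k = 0 then b else i)

theorem UL_dz {Q : (ℕ → ZFSet.{u}) → Prop} (hQ : DZ Q) : DZ.{u} fun v => UL_P Q (v 0) := by
  refine DZ.ex (R := fun x v => ∃ i b, v 0 = ZFSet.pair x i ∧ i.IsOrdinal ∧ b ∈ x ∧
    b.IsOrdinal ∧ (∀ b' ∈ x, b = b' ∨ b ∈ b') ∧ Q (fun k => if k = 0 then b else i)) ?_
  refine DZ.ex (R := fun i v => ∃ b, v 1 = ZFSet.pair (v 0) i ∧ i.IsOrdinal ∧ b ∈ v 0 ∧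
    b.IsOrdinal ∧ (∀ b' ∈ v 0, b = b' ∨ b ∈ b') ∧ Q (fun k => if k = 0 then b else i)) ?_
  refine DZ.ex (R := fun b v => v 2 = ZFSet.pair (v 1) (v 0) ∧ (v 0).IsOrdinal ∧ b ∈ v 1 ∧
    b.IsOrdinal ∧ (∀ b' ∈ v 1, b = b' ∨ b ∈ b') ∧ Q (fun k => if k = 0 then b else v 0)) ?_
  refine (loc_pair 3 2 1).dz.and ((DZ.ord 1).and ((DZ.mem 0 2).and ((DZ.ord 0).and
    (DZ.and ?_ ?_))))
  · exact DZ.allMem (R := fun b' v => v 0 = b' ∨ v 0 ∈ b') 2 ((DZ.eq 1 0).or (DZ.mem 1 0))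
  · refine (hQ.ren fun n => if n = 0 then 0 else 1).congr fun v => ?_
    have e : (fun n => if n = 0 then v 0 else v 1) = fun n => v (if n = 0 then 0 else 1) := by
      funext n
      split_ifs <;> rfl
    rw [e]

theorem pf_UL (hNU : T_NU1.{u}) : HD.PRK.T_UL.{u} := by
  intro δ hA γ hγ hns hδ
  obtain ⟨en, hen⟩ := HD.All.en.{u}
  obtain ⟨-, hE2, -, -⟩ := HD.All.ea.{u} en hen
  have hreg : (succ γ).IsRegular := Cardinal.isRegular_succ hγ
  have hγK : γ.ord < (succ γ).ord := Cardinal.ord_lt_ord.2 (Order.lt_succ γ)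
  have hK0 : ℵ₀ < succ γ := hγ.trans_lt (Order.lt_succ γ)
  have hlimK : IsSuccLimit (succ γ).ord := Cardinal.isSuccLimit_ord hreg.aleph0_le
  have hgood : ∀ β, γ.ord < β → β < (succ γ).ord → ∃ c, Good en γ.ord β c := by
    intro β h1 h2
    obtain ⟨f, hf, hfun, honto⟩ := (hA γ hγ hns hδ).2 β h1 h2
    obtain ⟨c, hc⟩ := (hen.od f).1 hf.od
    refine ⟨c, ?_, ?_⟩
    · intro a ha
      obtain ⟨w, hw, huw⟩ := hfun.2 a.toZFSet (toZFSet_mem_toZFSet_iff.2 ha)
      have h3 := hfun.1 hw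
      rw [ZFSet.pair_mem_prod] at h3
      obtain ⟨b, hb, rfl⟩ := mem_toZFSet_iff.1 h3.2
      refine ⟨b, hb, ?_, ?_⟩
      · show ZFSet.pair a.toZFSet b.toZFSet ∈ en c
        rw [hc]
        exact hw
      · intro b' hb'
        have h4 : ZFSet.pair a.toZFSet b'.toZFSet ∈ en c := hb'
        rw [hc] at h4
        exact toZFSet_injective (huw _ h4)
    · intro b hb
      obtain ⟨a, ha, hab⟩ := honto b hb
      refine ⟨a, ha, ?_⟩
      show ZFSet.pair a.toZFSet b.toZFSet ∈ en c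
      rw [hc]
      exact hab
  have hmin : ∀ β, γ.ord < β → β < (succ γ).ord → ∃ c, Good en γ.ord β c ∧
      ∀ c' < c, ¬ Good en γ.ord β c' := by
    intro β h1 h2
    obtain ⟨c, hc, hm⟩ := WellFounded.has_min (wellFounded_lt (α := Ordinal.{u}))
      {c | Good en γ.ord β c} (hgood β h1 h2)
    exact ⟨c, hc, fun c' hc' h => hm c' h hc'⟩
  have hun : ∀ β c c', (Good en γ.ord β c ∧ ∀ d < c, ¬ Good en γ.ord β d) →
      (Good en γ.ord β c' ∧ ∀ d < c', ¬ Good en γ.ord β d) → c = c' := by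
    intro β c c' h h'
    rcases lt_trichotomy c c' with h1 | h1 | h1
    · exact absurd h.1 (h'.2 c h1)
    · exact h1
    · exact absurd h'.1 (h.2 c' h1)
  have hR2 : ∀ n < γ.ord, ∀ β b b', Rn en γ.ord n β b → Rn en γ.ord n β b' → b = b' := by
    intro n hn β b b' h h'
    rcases h with ⟨h1, h2⟩ | ⟨h1, c, h2, h3⟩
    · rcases h' with ⟨_, h2'⟩ | ⟨h1', _⟩
      · rw [h2, h2']
      · exact absurd h1 (not_le.2 h1')
    · rcases h' with ⟨h1', _⟩ | ⟨_, c', h2', h3'⟩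
      · exact absurd h1' (not_le.2 h1)
      · have e := hun β c c' h2 h2'
        subst e
        obtain ⟨d, -, -, hd⟩ := h2.1.1 n hn
        rw [hd b h3, hd b' h3']
  -- the functions
  choose Q hQ hQn using fun n => rn_dr hE2 γ.ord n
  have hq : ∀ n b i : Ordinal.{u},
      Q n (fun k => if k = 0 then b.toZFSet else i.toZFSet) ↔ Rn en γ.ord n b i := by
    intro n b i
    have h3 := hQn n (fun k => if k = 0 then b else i)
    have e : ov (fun k => if k = 0 then b else i) =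
        fun k => if k = 0 then b.toZFSet else i.toZFSet := by
      funext k
      show (if k = 0 then b else i).toZFSet = _
      split_ifs <;> rfl
    rw [e] at h3
    exact h3.symm
  have hβ : Gd ((succ γ).ord + ω + ω) := by
    refine ⟨Ordinal.isSuccLimit_add _ Ordinal.isSuccLimit_omega0, ?_⟩
    calc (ω : Ordinal.{u}) ≤ (succ γ).ord + ω := le_add_self
      _ < (succ γ).ord + ω + ω := by
        have h1 : (0 : Ordinal.{u}) < ω := Ordinal.omega0_pos
        exact lt_add_of_pos_right _ h1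
  have hKβ : (succ γ).ord < (succ γ).ord + ω + ω := by
    have h1 : (0 : Ordinal.{u}) < ω := Ordinal.omega0_pos
    exact (lt_add_of_pos_right _ h1).trans_le le_self_add
  set F : Ordinal.{u} → ZFSet.{u} := fun n =>
    ZFSet.sep (UL_P (Q n)) (V_ ((succ γ).ord + ω + ω)) with hF
  have hFO : ∀ n, OD (F n) := fun n => od_sep (NF.od_V _) (UL_dz (hQ n))
  have hFf : ∀ n < γ.ord, ∀ x y z, ZFSet.pair x y ∈ F n → ZFSet.pair x z ∈ F n → y = z := by
    intro n hn x y z h h'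
    obtain ⟨-, x1, i, b, e1, h1, h2, h3, h4, h5⟩ := ZFSet.mem_sep.1 h
    obtain ⟨-, x1', i', b', e1', h1', h2', h3', h4', h5'⟩ := ZFSet.mem_sep.1 h'
    obtain ⟨rfl, rfl⟩ := ZFSet.pair_injective e1
    obtain ⟨rfl, rfl⟩ := ZFSet.pair_injective e1'
    have hbb : b = b' := by
      rcases h4 b' h2' with h6 | h6
      · exact h6
      · rcases h4' b h2 with h7 | h7
        · exact h7.symm
        · exact absurd h7 (ZFSet.mem_asymm h6)
    subst hbb
    obtain ⟨y, rfl⟩ := ord_of h1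
    obtain ⟨z, rfl⟩ := ord_of h1'
    obtain ⟨b, rfl⟩ := ord_of h3
    rw [hq] at h5 h5'
    rw [hR2 n hn b y z h5 h5']
  -- for each `α` one of the classes is positive
  have hkey : ∀ α < (succ γ).ord, ∃ n < γ.ord, PosX ω (succ γ).ord fun x =>
      ZFSet.pair x α.toZFSet ∈ F n ∧ ∀ a : Ordinal.{u}, a.toZFSet ∈ x → α < a := by
    intro α hα
    by_contra hcon
    push Not at hcon
    refine hNU ω (succ γ) hreg hK0 (Iio γ.ord) (fun n x =>
      ZFSet.pair x α.toZFSet ∈ F n.1 ∧ ∀ a : Ordinal.{u}, a.toZFSet ∈ x → α < a) ?_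
      (fun n => hcon n.1 n.2) ?_
    · rw [Cardinal.mk_Iio_ordinal, Cardinal.card_ord, Cardinal.lift_lt]
      exact Order.lt_succ γ
    · intro C hC
      have hC' : Clb (succ γ).ord {a | a ∈ C ∧ max α γ.ord < a} := by
        refine ⟨fun a ha => ?_, fun x hx h0 hy => ?_⟩
        · obtain ⟨b, hb, hab, hbC⟩ := hC.unb (max a (max α γ.ord)) (max_lt ha (max_lt hα hγK))
          exact ⟨b, hb, (le_max_left _ _).trans_lt hab, hbC, (le_max_right _ _).trans_lt hab⟩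
        · refine ⟨hC.cls x hx h0 fun y hyx => ?_, ?_⟩
          · obtain ⟨z, hz, hyz, hzC⟩ := hy y hyx
            exact ⟨z, hz, hyz, hzC.1⟩
          · obtain ⟨z, hz, -, hzC⟩ := hy 0 h0
            exact hzC.2.trans hz
      have hpos : Pos (ℵ₀ : Cardinal.{u}).ord (succ γ).ord univ :=
        _root_.HD.All.vc ℵ₀ (succ γ).ord Cardinal.isRegular_aleph0 (by rw [hreg.cof_ord]; exact hK0)
      obtain ⟨b, hb, ⟨hbC, hbm⟩, -, hcf⟩ := hpos _ hC'
      have hcf' : b.cof.ord = ω := hcf.trans Cardinal.ord_aleph0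
      have hγb : γ.ord < b := (le_max_right _ _).trans_lt hbm
      have hαb : α < b := (le_max_left _ _).trans_lt hbm
      obtain ⟨c, hc, hm⟩ := hmin b hγb hb
      obtain ⟨n, hn, hnE⟩ := hc.2 α hαb
      have h1 : Rn en γ.ord n b α := Or.inr ⟨hγb, c, ⟨hc, hm⟩, hnE⟩
      have hmem : ∀ z, z ∈ ({b.toZFSet} : ZFSet.{u}) ↔ z = b.toZFSet := fun z =>
        ZFSet.mem_singleton
      have hsub : ({b.toZFSet} : ZFSet.{u}) ⊆ (succ γ).ord.toZFSet := fun z hz => by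
        rw [(hmem z).1 hz]
        exact toZFSet_mem_toZFSet_iff.2 hb
      refine ⟨{b.toZFSet}, ⟨⟨b.toZFSet, (hmem _).2 rfl⟩, fun z hz => ⟨b, hb, hbC, hcf'.le,
        (hmem z).1 hz⟩, fun _ => b, fun a ha => ⟨0, Ordinal.omega0_pos,
          (toZFSet_injective ((hmem _).1 ha)).symm⟩⟩, ⟨n, hn⟩, ?_, fun a ha => ?_⟩
      · rw [hF, ZFSet.mem_sep]
        refine ⟨hβ.pair (mem_V_of_sub hsub (Gd.ord.2 hKβ)) (Gd.ord.2 (hα.trans hKβ)),
          {b.toZFSet}, α.toZFSet, b.toZFSet, rfl, ZFSet.isOrdinal_toZFSet _, (hmem _).2 rfl,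
          ZFSet.isOrdinal_toZFSet _, fun b' hb' => Or.inl ((hmem b').1 hb').symm, ?_⟩
        exact (hq n b α).2 h1
      · rw [toZFSet_injective ((hmem _).1 ha)]
        exact hαb
  choose! ν hν1 hν2 using hkey
  -- the pigeonhole principle
  have hex : ∃ n < γ.ord, ¬ Few δ {α | α < (succ γ).ord ∧ ν α = n} := by
    by_contra hcon
    push Not at hcon
    unfold Few at hcon
    choose! τ hτ e he using hcon
    have h1 : ∀ α : Iio (succ γ).ord, ∃ a < τ (ν α.1), e (ν α.1) a = α.1 := fun α =>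
      he (ν α.1) (hν1 α.1 α.2) α.1 ⟨α.2, rfl⟩
    choose a ha1 ha2 using h1
    let G : Iio (succ γ).ord → Iio γ.ord × Iio δ := fun α =>
      (⟨ν α.1, hν1 α.1 α.2⟩, ⟨a α, (ha1 α).trans (hτ _ (hν1 α.1 α.2))⟩)
    have hG : Function.Injective G := by
      intro α α' h
      have e1 : ν α.1 = ν α'.1 := congrArg (fun p => p.1.1) h
      have e2 : a α = a α' := congrArg (fun p => p.2.1) h
      apply Subtype.ext
      rw [← ha2 α, ← ha2 α', e1, e2]
    have h2 := Cardinal.mk_le_of_injective hG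
    rw [Cardinal.mk_prod, Cardinal.lift_id, Cardinal.lift_id, Cardinal.mk_Iio_ordinal,
      Cardinal.mk_Iio_ordinal, Cardinal.mk_Iio_ordinal, Cardinal.card_ord, Cardinal.card_ord,
      ← Cardinal.lift_mul, Cardinal.lift_le] at h2
    have h3 : γ * δ.card ≤ γ := by
      refine (mul_le_mul' le_rfl (Cardinal.lt_ord.1 hδ).le).trans ?_
      rw [Cardinal.mul_eq_self hγ]
    exact absurd (h2.trans h3) (not_le.2 (Order.lt_succ γ))
  obtain ⟨n, hn, hW⟩ := hex
  refine ⟨F n, hFO n, hFf n hn, {α | α < (succ γ).ord ∧ ν α = n}, hW, fun i hi => ?_⟩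
  have h := hν2 i hi.1
  rw [hi.2] at h
  exact h

end Pool.Agent.H75.PRK
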